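import Pool.Agent.TH239.FF.Gen

/-!
# Job 951 (MP_974af6_an): relaxation lemma, Catalan recursion, convergence of all coefficients
-/

set_option autoImplicit false

namespace Pool.Agent.TH239.FF

open Set Filter Topology MeasureTheory

private theorem relax_upper (y f : ℝ → ℝ) (k L : ℝ) (hk : 0 < k)
    (hy : ∀ t, 0 < t → HasDerivAt y (-k * y t + k * f t) t) (hf : Tendsto f atTop (𝓝 L))
    (ε : ℝ) (hε : 0 < ε) : ∀ᶠ t in atTop, y t < L + ε := by
  have h1 : ∀ᶠ t in atTop, f t < L + ε / 2 := hf.eventually_lt_const (by linarith)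
  obtain ⟨T, hT1, hT⟩ : ∃ T : ℝ, 1 ≤ T ∧ ∀ t, T ≤ t → f t < L + ε / 2 := by
    obtain ⟨T0, hT0⟩ := eventually_atTop.1 h1
    exact ⟨max T0 1, le_max_right _ _, fun t ht => hT0 t (le_trans (le_max_left _ _) ht)⟩
  -- g t = exp (k t) (y t - L - ε/2) is antitone on [T, ∞)
  have hd : ∀ t, T ≤ t → HasDerivAt (fun t => Real.exp (k * t) * (y t - (L + ε / 2)))
      (k * Real.exp (k * t) * (f t - (L + ε / 2))) t := by
    intro t ht
    have h0 : (0 : ℝ) < t := by linarith
    have e1 : HasDerivAt (fun t : ℝ => Real.exp (k * t)) (Real.exp (k * t) * (k * 1)) t :=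
      ((hasDerivAt_id t).const_mul k).exp
    have e2 := e1.mul ((hy t h0).sub_const (L + ε / 2))
    refine e2.congr_deriv ?_
    ring
  have hanti : AntitoneOn (fun t => Real.exp (k * t) * (y t - (L + ε / 2))) (Ici T) := by
    refine antitoneOn_of_deriv_nonpos (convex_Ici T)
      (fun t ht => (hd t ht).continuousAt.continuousWithinAt)
      (fun t ht => ?_) (fun t ht => ?_)
    · rw [interior_Ici] at ht
      exact (hd t (le_of_lt ht)).differentiableAt.differentiableWithinAt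
    · rw [interior_Ici] at ht
      rw [(hd t (le_of_lt ht)).deriv]
      have := hT t (le_of_lt ht)
      have e : 0 < k * Real.exp (k * t) := mul_pos hk (Real.exp_pos _)
      exact mul_nonpos_of_nonneg_of_nonpos e.le (by linarith)
  have hb : ∀ t, T ≤ t → y t ≤ (L + ε / 2)
      + Real.exp (-(k * (t - T))) * (y T - (L + ε / 2)) := by
    intro t ht
    have h := hanti (self_mem_Ici) ht ht
    simp only at h
    have e : Real.exp (-(k * (t - T))) = Real.exp (k * T) / Real.exp (k * t) := by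
      rw [← Real.exp_sub]; congr 1; ring
    rw [e]
    have p := Real.exp_pos (k * t)
    rw [div_mul_eq_mul_div]
    rw [← sub_le_iff_le_add', le_div_iff₀ p]
    linarith
  have hlim : Tendsto (fun t => (L + ε / 2)
      + Real.exp (-(k * (t - T))) * (y T - (L + ε / 2))) atTop (𝓝 ((L + ε / 2)
      + 0 * (y T - (L + ε / 2)))) := by
    refine tendsto_const_nhds.add (Tendsto.mul_const _ ?_)
    refine Real.tendsto_exp_neg_atTop_nhds_zero.comp ?_
    exact Tendsto.const_mul_atTop hk (tendsto_atTop_add_const_right _ _ tendsto_id)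
  have h2 : ∀ᶠ t in atTop, (L + ε / 2)
      + Real.exp (-(k * (t - T))) * (y T - (L + ε / 2)) < L + ε :=
    hlim.eventually_lt_const (by linarith)
  filter_upwards [h2, eventually_ge_atTop T] with t ht1 ht2
  exact lt_of_le_of_lt (hb t ht2) ht1

theorem relax (y f : ℝ → ℝ) (k L : ℝ) (hk : 0 < k)
    (hy : ∀ t, 0 < t → HasDerivAt y (-k * y t + k * f t) t) (hf : Tendsto f atTop (𝓝 L)) :
    Tendsto y atTop (𝓝 L) := by
  rw [Metric.tendsto_nhds]
  intro ε hε
  have h1 := relax_upper y f k L hk hy hf ε hε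
  have h2 := relax_upper (fun t => - y t) (fun t => - f t) k (-L) hk
    (fun t ht => by
      refine (hy t ht).neg.congr_deriv ?_
      ring) hf.neg ε hε
  filter_upwards [h1, h2] with t a b
  rw [Real.dist_eq, abs_lt]
  constructor <;> linarith

theorem cb_eq951 (k : ℕ) :
    (Nat.centralBinom (k + 1) : ℝ) / ((2 * ((k + 1 : ℕ) : ℝ) - 1) * 4 ^ (k + 1))
      = 2 * (catalan k : ℝ) / 4 ^ (k + 1) := by
  have h1 : ((k : ℝ) + 1) * (Nat.centralBinom (k + 1) : ℝ)
      = 2 * (2 * (k : ℝ) + 1) * (Nat.centralBinom k : ℝ) := by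
    exact_mod_cast Nat.succ_mul_centralBinom_succ k
  have h2 : ((k : ℝ) + 1) * (catalan k : ℝ) = (Nat.centralBinom k : ℝ) := by
    exact_mod_cast succ_mul_catalan_eq_centralBinom k
  have hk : (0 : ℝ) < (k : ℝ) + 1 := by positivity
  have h3 : (Nat.centralBinom (k + 1) : ℝ) = 2 * (2 * (k : ℝ) + 1) * (catalan k : ℝ) := by
    have : ((k : ℝ) + 1) * (Nat.centralBinom (k + 1) : ℝ)
        = ((k : ℝ) + 1) * (2 * (2 * (k : ℝ) + 1) * (catalan k : ℝ)) := by
      rw [h1, ← h2]; ring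
    exact mul_left_cancel₀ hk.ne' this
  rw [h3]
  have h4 : (2 * ((k + 1 : ℕ) : ℝ) - 1) = 2 * (k : ℝ) + 1 := by push_cast; ring
  rw [h4]
  have h5 : (2 * (k : ℝ) + 1) ≠ 0 := by positivity
  field_simp

theorem catalan_rec (n : ℕ) (hn : 1 ≤ n) :
    (Nat.centralBinom (n + 1) : ℝ) / ((2 * ((n + 1 : ℕ) : ℝ) - 1) * 4 ^ (n + 1))
      = (1 / 2) * ∑ i ∈ Finset.range n,
        ((Nat.centralBinom (i + 1) : ℝ) / ((2 * ((i + 1 : ℕ) : ℝ) - 1) * 4 ^ (i + 1)))
        * ((Nat.centralBinom (n - 1 - i + 1) : ℝ)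
          / ((2 * ((n - 1 - i + 1 : ℕ) : ℝ) - 1) * 4 ^ (n - 1 - i + 1))) := by
  obtain ⟨m, rfl⟩ : ∃ m, n = m + 1 := ⟨n - 1, by omega⟩
  simp only [cb_eq951]
  have hc : (catalan (m + 1) : ℝ)
      = ∑ i ∈ Finset.range (m + 1), (catalan i : ℝ) * (catalan (m - i) : ℝ) := by
    rw [catalan_succ, Finset.sum_range]
    push_cast
    rfl
  rw [hc, Finset.mul_sum, Finset.sum_div, Finset.mul_sum]
  refine Finset.sum_congr rfl fun i hi => ?_
  have hi' : i ≤ m := by
    have := Finset.mem_range.1 hi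
    omega
  have e1 : m + 1 - 1 - i = m - i := by omega
  rw [e1]
  have e2 : (4 : ℝ) ^ (m + 1 + 1) = 4 ^ (i + 1) * 4 ^ (m - i + 1) := by
    rw [← pow_add]; congr 1; omega
  rw [e2]
  have p1 : (4 : ℝ) ^ (i + 1) ≠ 0 := by positivity
  have p2 : (4 : ℝ) ^ (m - i + 1) ≠ 0 := by positivity
  field_simp

theorem final {c : ℕ → ℝ → ℝ} (h : Sol c) (h0 : Tendsto (c 0) atTop (𝓝 (1 / 2))) (n : ℕ) :
    Tendsto (c n) atTop
      (𝓝 ((Nat.centralBinom (n + 1) : ℝ) / ((2 * ((n + 1 : ℕ) : ℝ) - 1) * 4 ^ (n + 1)))) := by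
  induction n using Nat.strong_induction_on with
  | _ n ih =>
    rcases Nat.eq_zero_or_pos n with hn | hn
    · subst hn
      have e : (Nat.centralBinom (0 + 1) : ℝ) / ((2 * ((0 + 1 : ℕ) : ℝ) - 1) * 4 ^ (0 + 1))
          = 1 / 2 := by
        rw [cb_eq951]; norm_num
      rw [e]; exact h0
    · refine relax (c n) (fun t => (1 / 2) * ∑ i ∈ Finset.range n, c i t * c (n - 1 - i) t)
        ((n : ℝ) + 1) _ (by positivity) (fun t ht => ?_) ?_
      · refine (h.dv n hn t ht).congr_deriv ?_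
        unfold dr
        ring
      · rw [catalan_rec n hn]
        refine Tendsto.const_mul _ (tendsto_finsetSum _ fun i hi => ?_)
        have hi' := Finset.mem_range.1 hi
        exact (ih i hi').mul (ih (n - 1 - i) (by omega))

end Pool.Agent.TH239.FF
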