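import Pool.Agent.TH239.FF.Gen

/-!
# Job 952 (MP_974af6_an): formula for `c 0`, positivity and limit 1/2
-/

set_option autoImplicit false

namespace Pool.Agent.TH239.FF

open Set Filter Topology MeasureTheory

theorem Ph_zero952 (c : ℕ → ℝ → ℝ) : Ph c 0 = 0 := by
  unfold Ph
  simp

theorem c0_formula {c : ℕ → ℝ → ℝ} (h : Sol c) (b : Bas c) {t : ℝ} (ht : 0 ≤ t) :
    c 0 t = Real.exp (-t) * c 0 0 + Real.exp (-t) * Ph c t
      + ∫ r in (0 : ℝ)..t, Real.exp (-r) * (Ph c t - Ph c (t - r)) := by
  have hcc : ContinuousOn (c 0) (Icc 0 t) := (h.ct 0).mono Icc_subset_Ici_self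
  have hpc : ContinuousOn (Ph c) (Icc 0 t) := b.pc.mono Icc_subset_Ici_self
  -- e^s * I(s) where I s = ∫ 0..s c0
  have key : Real.exp t * (∫ s in (0 : ℝ)..t, c 0 s)
      = ∫ s in (0 : ℝ)..t, Real.exp s * (Ph c s + c 0 0) := by
    have hI : ∀ s ∈ Ioo 0 t, HasDerivAt (fun u => ∫ r in (0 : ℝ)..u, c 0 r) (c 0 s) s := by
      intro s hs
      refine intervalIntegral.integral_hasDerivAt_right ?_ ?_ ?_
      · exact (hcc.mono (by
          rw [uIcc_of_le hs.1.le]; exact Icc_subset_Icc_right hs.2.le)).intervalIntegrable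
      · exact (hcc.mono Ioo_subset_Icc_self).stronglyMeasurableAtFilter isOpen_Ioo s hs
      · exact (hcc.continuousAt (Icc_mem_nhds hs.1 hs.2))
    have hIc : ContinuousOn (fun u => ∫ r in (0 : ℝ)..u, c 0 r) (Icc 0 t) := by
      have := intervalIntegral.continuousOn_primitive_interval
        (μ := volume) (f := c 0) (a := 0) (b := t)
        (by rw [uIcc_of_le ht]; exact hcc.integrableOn_Icc)
      rwa [uIcc_of_le ht] at this
    have hF := intervalIntegral.integral_eq_sub_of_hasDerivAt_of_le ht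
      (f := fun s => Real.exp s * (∫ r in (0 : ℝ)..s, c 0 r))
      (f' := fun s => Real.exp s * (Ph c s + c 0 0))
      (Real.continuous_exp.continuousOn.mul hIc)
      (fun s hs => by
        have := (Real.hasDerivAt_exp s).mul (hI s hs)
        refine this.congr_deriv ?_
        unfold Ph
        ring)
      ((Real.continuous_exp.continuousOn.mul (hpc.add continuousOn_const)).intervalIntegrable_of_Icc
        ht)
    rw [hF]
    simp
  -- rewrite
  have hsub : ∫ r in (0 : ℝ)..t, Real.exp (-r) * (Ph c (t - r) + c 0 0)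
      = Real.exp (-t) * ∫ s in (0 : ℝ)..t, Real.exp s * (Ph c s + c 0 0) := by
    have h1 := intervalIntegral.integral_comp_sub_left (a := 0) (b := t)
      (fun s => Real.exp (s - t) * (Ph c s + c 0 0)) t
    simp only [sub_self, sub_zero] at h1
    have h2 : (∫ r in (0 : ℝ)..t, Real.exp (-r) * (Ph c (t - r) + c 0 0))
        = ∫ r in (0 : ℝ)..t, Real.exp (t - r - t) * (Ph c (t - r) + c 0 0) := by
      congr 1; funext r; congr 2; ring
    rw [h2, h1, ← intervalIntegral.integral_const_mul]
    congr 1; funext r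
    rw [← mul_assoc, ← Real.exp_add]
    congr 2; ring
  have hI : (∫ s in (0 : ℝ)..t, c 0 s)
      = ∫ r in (0 : ℝ)..t, Real.exp (-r) * (Ph c (t - r) + c 0 0) := by
    rw [hsub, ← key, ← mul_assoc, ← Real.exp_add]
    simp
  have hexp : ∫ r in (0 : ℝ)..t, Real.exp (-r) = 1 - Real.exp (-t) := by
    have := intervalIntegral.integral_comp_neg (a := 0) (b := t) (fun s => Real.exp s)
    rw [this]
    simp
  have hcomp : ContinuousOn (fun r => Ph c (t - r)) (Icc 0 t) := by
    refine hpc.comp (by fun_prop) ?_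
    intro r hr
    exact ⟨by linarith [hr.2], by linarith [hr.1]⟩
  have hei : IntervalIntegrable (fun r => Real.exp (-r)) volume 0 t :=
    (Continuous.intervalIntegrable (by fun_prop) _ _)
  have hi1 : IntervalIntegrable (fun r => Real.exp (-r) * (Ph c (t - r) + c 0 0)) volume 0 t :=
    (ContinuousOn.mul (by fun_prop) (hcomp.add continuousOn_const)).intervalIntegrable_of_Icc ht
  have hrhs : ∫ r in (0 : ℝ)..t, Real.exp (-r) * (Ph c t - Ph c (t - r))
      = (Ph c t + c 0 0) * (1 - Real.exp (-t)) - ∫ s in (0 : ℝ)..t, c 0 s := by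
    rw [hI, ← hexp, ← intervalIntegral.integral_const_mul, ← intervalIntegral.integral_sub
      (hei.const_mul _) hi1]
    congr 1; funext r; ring
  rw [hrhs]
  have hPh : Ph c t = c 0 t - c 0 0 + ∫ s in (0 : ℝ)..t, c 0 s := rfl
  linear_combination (-1 : ℝ) * hPh

theorem c0_nonneg_int952 {c : ℕ → ℝ → ℝ} (b : Bas c) {t : ℝ} (ht : 0 ≤ t) :
    0 ≤ ∫ r in (0 : ℝ)..t, Real.exp (-r) * (Ph c t - Ph c (t - r)) := by
  refine intervalIntegral.integral_nonneg ht fun r hr => ?_
  have := b.pm (t - r) t (by linarith [hr.2]) (by linarith [hr.1])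
  exact mul_nonneg (Real.exp_pos _).le (by linarith)

theorem c0_pos {c : ℕ → ℝ → ℝ} (h : Sol c) (b : Bas c)
    (hcl : ∀ s t, 0 ≤ s → s ≤ t → cl c t - cl c s = (Ph c t - Ph c s) - (1 / 2) * (t - s))
    (hcm : ∀ t, 0 ≤ t → 0 ≤ cl c t ∧ cl c t ≤ 1) {t : ℝ} (ht : 3 ≤ t) : 0 < c 0 t := by
  have ht0 : (0 : ℝ) ≤ t := by linarith
  rw [c0_formula h b ht0]
  have h1 := hcl 0 t le_rfl ht0
  rw [Ph_zero952] at h1
  have h2 := (hcm t ht0).1
  have h3 := (hcm 0 le_rfl).2
  have hP : 0 < Ph c t := by linarith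
  have h4 := c0_nonneg_int952 b ht0
  have h5 : 0 ≤ Real.exp (-t) * c 0 0 := mul_nonneg (Real.exp_pos _).le (h.nn 0 0 le_rfl)
  have h6 : 0 < Real.exp (-t) * Ph c t := mul_pos (Real.exp_pos _) hP
  linarith

theorem c0_tendsto {c : ℕ → ℝ → ℝ} (h : Sol c) (b : Bas c)
    (hcl : ∀ s t, 0 ≤ s → s ≤ t → cl c t - cl c s = (Ph c t - Ph c s) - (1 / 2) * (t - s))
    (hcm : ∀ t, 0 ≤ t → 0 ≤ cl c t ∧ cl c t ≤ 1)
    (hP : ∀ r : ℝ, 0 < r → Tendsto (fun t => Ph c (t + r) - Ph c t) atTop (𝓝 (r / 2))) :
    Tendsto (c 0) atTop (𝓝 (1 / 2)) := by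
  have hdiff : ∀ s t, 0 ≤ s → s ≤ t → Ph c t - Ph c s ≤ (t - s) / 2 + 1 := by
    intro s t hs hst
    have h1 := hcl s t hs hst
    have h2 := (hcm t (by linarith)).2
    have h3 := (hcm s hs).1
    linarith
  have hexp0 : Tendsto (fun t : ℝ => Real.exp (-t)) atTop (𝓝 0) :=
    Real.tendsto_exp_neg_atTop_nhds_zero
  have hmulexp : Tendsto (fun t : ℝ => t * Real.exp (-t)) atTop (𝓝 0) := by
    have := Real.tendsto_pow_mul_exp_neg_atTop_nhds_zero 1
    simpa using this
  have t1 : Tendsto (fun t => Real.exp (-t) * c 0 0) atTop (𝓝 0) := by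
    simpa using hexp0.mul_const (c 0 0)
  have t2 : Tendsto (fun t => Real.exp (-t) * Ph c t) atTop (𝓝 0) := by
    refine tendsto_of_tendsto_of_tendsto_of_le_of_le' (g := fun _ => (0 : ℝ))
      (h := fun t => t * Real.exp (-t) / 2 + Real.exp (-t)) tendsto_const_nhds ?_ ?_ ?_
    · simpa using (hmulexp.div_const 2).add hexp0
    · filter_upwards [eventually_ge_atTop (0 : ℝ)] with t ht
      have := b.pm 0 t le_rfl ht
      rw [Ph_zero952] at this
      exact mul_nonneg (Real.exp_pos _).le this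
    · filter_upwards [eventually_ge_atTop (0 : ℝ)] with t ht
      have := hdiff 0 t le_rfl ht
      rw [Ph_zero952] at this
      have e := Real.exp_pos (-t)
      nlinarith
  -- the integral, as an integral over (0, ∞)
  have hF : ∀ t : ℝ, 0 ≤ t → (∫ r in (0 : ℝ)..t, Real.exp (-r) * (Ph c t - Ph c (t - r)))
      = ∫ r in Ioi (0 : ℝ), (Iic t).indicator
        (fun r => Real.exp (-r) * (Ph c t - Ph c (t - r))) r := by
    intro t ht
    rw [intervalIntegral.integral_of_le ht, setIntegral_indicator measurableSet_Iic]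
    rfl
  have hlim : ∫ r in Ioi (0 : ℝ), Real.exp (-r) * (r / 2) = 1 / 2 := by
    have h1 : ∫ r in Ioi (0 : ℝ), Real.exp (-r) * (r / 2)
        = (1 / 2) * ∫ r in Ioi (0 : ℝ), Real.exp (-r) * r ^ ((2 : ℝ) - 1) := by
      rw [← integral_const_mul]
      refine setIntegral_congr_fun measurableSet_Ioi fun r hr => ?_
      have : r ^ ((2 : ℝ) - 1) = r := by
        rw [show ((2 : ℝ) - 1) = 1 by norm_num, Real.rpow_one]
      simp only [this]
      ring
    rw [h1, ← Real.Gamma_eq_integral (by norm_num : (0 : ℝ) < 2)]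
    rw [Real.Gamma_two]
    norm_num
  have t3 : Tendsto (fun t => ∫ r in Ioi (0 : ℝ), (Iic t).indicator
        (fun r => Real.exp (-r) * (Ph c t - Ph c (t - r))) r) atTop
        (𝓝 (∫ r in Ioi (0 : ℝ), Real.exp (-r) * (r / 2))) := by
    refine tendsto_integral_filter_of_dominated_convergence
      (fun r => Real.exp (-r) * (r / 2 + 1)) ?_ ?_ ?_ ?_
    · filter_upwards [eventually_ge_atTop (0 : ℝ)] with t ht
      rw [aestronglyMeasurable_indicator_iff measurableSet_Iic,
        Measure.restrict_restrict measurableSet_Iic]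
      have hcomp : ContinuousOn (fun r => Ph c (t - r)) (Iic t) := by
        refine b.pc.comp (by fun_prop) ?_
        intro r hr
        exact (by simpa using hr : (0 : ℝ) ≤ t - r)
      have : ContinuousOn (fun r => Real.exp (-r) * (Ph c t - Ph c (t - r))) (Iic t ∩ Ioi 0) := by
        refine ContinuousOn.mono (s := Iic t) ?_ inter_subset_left
        exact ContinuousOn.mul (by fun_prop) (continuousOn_const.sub hcomp)
      exact this.aestronglyMeasurable (measurableSet_Iic.inter measurableSet_Ioi)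
    · filter_upwards [eventually_ge_atTop (0 : ℝ)] with t ht
      refine (ae_restrict_iff' measurableSet_Ioi).2 (Eventually.of_forall fun r hr => ?_)
      have hr0 : (0 : ℝ) < r := hr
      by_cases hrt : r ∈ Iic t
      · rw [indicator_of_mem hrt]
        have hrt' : r ≤ t := hrt
        have h1 := b.pm (t - r) t (by linarith) (by linarith)
        have h2 := hdiff (t - r) t (by linarith) (by linarith)
        rw [Real.norm_eq_abs, abs_of_nonneg (mul_nonneg (Real.exp_pos _).le (by linarith))]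
        refine mul_le_mul_of_nonneg_left ?_ (Real.exp_pos _).le
        have e : t - (t - r) = r := by ring
        rw [e] at h2
        exact h2
      · rw [indicator_of_notMem hrt, norm_zero]
        positivity
    · have i1 : IntegrableOn (fun r : ℝ => Real.exp (-r) * r ^ ((2 : ℝ) - 1)) (Ioi 0) :=
        Real.GammaIntegral_convergent (by norm_num)
      have i2 : IntegrableOn (fun r : ℝ => Real.exp (-r)) (Ioi 0) := by
        simpa using integrableOn_exp_neg_Ioi 0
      have i3 : IntegrableOn (fun r : ℝ => (1 / 2) * (Real.exp (-r) * r ^ ((2 : ℝ) - 1))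
          + Real.exp (-r)) (Ioi 0) := (i1.const_mul _).add i2
      refine i3.congr_fun (fun r hr => ?_) measurableSet_Ioi
      have : r ^ ((2 : ℝ) - 1) = r := by
        rw [show ((2 : ℝ) - 1) = 1 by norm_num, Real.rpow_one]
      simp only [this]
      ring
    · refine (ae_restrict_iff' measurableSet_Ioi).2 (Eventually.of_forall fun r hr => ?_)
      have hr0 : (0 : ℝ) < r := hr
      have h1 := (hP r hr0).comp (tendsto_atTop_add_const_right atTop (-r) tendsto_id)
      have h2 : Tendsto (fun t => Real.exp (-r) * (Ph c t - Ph c (t - r))) atTop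
          (𝓝 (Real.exp (-r) * (r / 2))) := by
        refine Tendsto.const_mul _ (h1.congr fun t => ?_)
        simp only [Function.comp, id]
        congr 2
        ring
      refine h2.congr' ?_
      filter_upwards [eventually_ge_atTop r] with t ht
      rw [indicator_of_mem (show r ∈ Iic t from ht)]
  rw [hlim] at t3
  have t4 : Tendsto (fun t => Real.exp (-t) * c 0 0 + Real.exp (-t) * Ph c t
      + ∫ r in Ioi (0 : ℝ), (Iic t).indicator
        (fun r => Real.exp (-r) * (Ph c t - Ph c (t - r))) r) atTop (𝓝 (0 + 0 + 1 / 2)) :=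
    (t1.add t2).add t3
  rw [zero_add, zero_add] at t4
  refine t4.congr' ?_
  filter_upwards [eventually_ge_atTop (0 : ℝ)] with t ht
  rw [c0_formula h b ht, hF t ht]

end Pool.Agent.TH239.FF
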